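import Pool.Agent.Lib.CookLevin.Defs

/-!
# Closed finite sets of columns
-/

namespace Pool.Agent.Lib.CookLevin

open Turing

section

variable {K : Type} [DecidableEq K] {Γ : K → Type} {Λ σ : Type}

/-- the statements which occur in the machine -/
def Occ (m : Λ → TM2.Stmt Γ Λ σ) : Set (TM2.Stmt Γ Λ σ) :=
  {s | ∃ l, s ∈ TM2.stmts₁ (m l)}

theorem occ_finite [Finite Λ] (m : Λ → TM2.Stmt Γ Λ σ) : (Occ m).Finite := by
  have h : Occ m = ⋃ l, (↑(TM2.stmts₁ (m l)) : Set (TM2.Stmt Γ Λ σ)) := by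
    ext s; simp [Occ]
  rw [h]
  exact Set.finite_iUnion fun l => Finset.finite_toSet _

theorem occ_self (m : Λ → TM2.Stmt Γ Λ σ) (l : Λ) : m l ∈ Occ m :=
  ⟨l, TM2.stmts₁_self⟩

theorem occ_trans {m : Λ → TM2.Stmt Γ Λ σ} {s t : TM2.Stmt Γ Λ σ} (hs : s ∈ Occ m)
    (h : t ∈ TM2.stmts₁ s) : t ∈ Occ m := by
  obtain ⟨l, hl⟩ := hs
  exact ⟨l, TM2.stmts₁_trans hl h⟩

theorem occ_push {m : Λ → TM2.Stmt Γ Λ σ} {k : K} {f : σ → Γ k} {q : TM2.Stmt Γ Λ σ}
    (h : TM2.Stmt.push k f q ∈ Occ m) : q ∈ Occ m :=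
  occ_trans h (by simp [TM2.stmts₁, TM2.stmts₁_self])

theorem occ_peek {m : Λ → TM2.Stmt Γ Λ σ} {k : K} {f : σ → Option (Γ k) → σ}
    {q : TM2.Stmt Γ Λ σ} (h : TM2.Stmt.peek k f q ∈ Occ m) : q ∈ Occ m :=
  occ_trans h (by simp [TM2.stmts₁, TM2.stmts₁_self])

theorem occ_pop {m : Λ → TM2.Stmt Γ Λ σ} {k : K} {f : σ → Option (Γ k) → σ}
    {q : TM2.Stmt Γ Λ σ} (h : TM2.Stmt.pop k f q ∈ Occ m) : q ∈ Occ m :=
  occ_trans h (by simp [TM2.stmts₁, TM2.stmts₁_self])

theorem occ_load {m : Λ → TM2.Stmt Γ Λ σ} {f : σ → σ}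
    {q : TM2.Stmt Γ Λ σ} (h : TM2.Stmt.load f q ∈ Occ m) : q ∈ Occ m :=
  occ_trans h (by simp [TM2.stmts₁, TM2.stmts₁_self])

theorem occ_branch {m : Λ → TM2.Stmt Γ Λ σ} {f : σ → Bool}
    {q₁ q₂ : TM2.Stmt Γ Λ σ} (h : TM2.Stmt.branch f q₁ q₂ ∈ Occ m) (b : Bool) :
    cond b q₁ q₂ ∈ Occ m :=
  occ_trans h (by cases b <;> simp [TM2.stmts₁, TM2.stmts₁_self])

/-- the symbol pushed on the stack `k` -/
def pushed (k : K) : TM2.Stmt Γ Λ σ × σ → Option (Γ k)
  | (TM2.Stmt.push k' f _, v) => if h : k' = k then some (h ▸ f v) else none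
  | _ => none

/-- the possible entries of the stack `k` -/
def Entries (m : Λ → TM2.Stmt Γ Λ σ) (k₀ k : K) : Set (Option (Γ k)) :=
  {x | x = none ∨ k = k₀ ∨ ∃ p ∈ Occ m ×ˢ (Set.univ : Set σ), pushed k p = x}

theorem entries_finite [Finite Λ] [Finite σ] (m : Λ → TM2.Stmt Γ Λ σ) (k₀ k : K)
    [Finite (Γ k₀)] : (Entries m k₀ k).Finite := by
  by_cases h : k = k₀
  · subst h
    exact Set.toFinite _
  · have h1 : ((fun p => pushed k p) '' (Occ m ×ˢ (Set.univ : Set σ)) :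
        Set (Option (Γ k))).Finite := ((occ_finite m).prod Set.finite_univ).image _
    refine (h1.union (Set.finite_singleton none)).subset ?_
    rintro x (hx | hx | ⟨p, hp, hx⟩)
    · exact Or.inr hx
    · exact absurd hx h
    · exact Or.inl ⟨p, hp, hx⟩

theorem mem_entries_push {m : Λ → TM2.Stmt Γ Λ σ} {k₀ k : K} {f : σ → Γ k}
    {q : TM2.Stmt Γ Λ σ} (h : TM2.Stmt.push k f q ∈ Occ m) (v : σ) :
    some (f v) ∈ Entries m k₀ k :=
  Or.inr (Or.inr ⟨(TM2.Stmt.push k f q, v), ⟨h, Set.mem_univ _⟩, by simp [pushed]⟩)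

/-- the closed set of columns -/
def ColSet (m : Λ → TM2.Stmt Γ Λ σ) (k₀ : K) : Set (Col Γ Λ σ) :=
  {c | (∀ s, c.1.1 = some s → s ∈ Occ m) ∧ ∀ k, c.2 k ∈ Entries m k₀ k}

theorem colSet_finite [Finite K] [Finite Λ] [Finite σ] (m : Λ → TM2.Stmt Γ Λ σ) (k₀ : K)
    [Finite (Γ k₀)] : (ColSet m k₀).Finite := by
  have h1 : ({q : Option (TM2.Stmt Γ Λ σ) | ∀ s, q = some s → s ∈ Occ m}).Finite := by
    refine (((occ_finite m).image some).union (Set.finite_singleton none)).subset ?_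
    rintro (_ | s) hs
    · exact Or.inr rfl
    · exact Or.inl ⟨s, hs s rfl, rfl⟩
  have h2 : (Set.pi Set.univ fun k => Entries m k₀ k).Finite :=
    Set.Finite.pi fun k => entries_finite m k₀ k
  refine (((h1.prod (Set.finite_univ (α := σ))).prod h2)).subset ?_
  rintro ⟨⟨q, v⟩, o⟩ ⟨h3, h4⟩
  exact ⟨⟨h3, Set.mem_univ _⟩, fun k _ => h4 k⟩

theorem update_mem {m : Λ → TM2.Stmt Γ Λ σ} {k₀ : K} {o : ∀ k, Option (Γ k)}
    (ho : ∀ k, o k ∈ Entries m k₀ k) (k : K) {x : Option (Γ k)} (hx : x ∈ Entries m k₀ k) :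
    ∀ k', Function.update o k x k' ∈ Entries m k₀ k' := by
  intro k'
  by_cases h : k' = k
  · subst h
    simpa using hx
  · rw [Function.update_of_ne h]
    exact ho k'

/-- The finite closed set of columns. -/
theorem exists_closed [Finite K] [Finite Λ] [Finite σ] (v₀ : σ) (m : Λ → TM2.Stmt Γ Λ σ)
    (k₀ : K) [Finite (Γ k₀)] :
    ∃ G : Set (Col Γ Λ σ), G.Finite ∧ blank v₀ ∈ G ∧
      (∀ (l : Λ) (v : σ) (o : ∀ k, Option (Γ k)), (∀ k, k ≠ k₀ → o k = none) →
        ((some (m l), v), o) ∈ G ∧ ((none, v), o) ∈ G) ∧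
      (∀ a ∈ G, ∀ b ∈ G, rule0 m a b ∈ G) ∧
      (∀ a ∈ G, ∀ b ∈ G, ∀ c ∈ G, ∀ d ∈ G, rule1 v₀ a b c d ∈ G) := by
  refine ⟨ColSet m k₀, colSet_finite m k₀, ⟨?_, ?_⟩, ?_, ?_, ?_⟩
  · intro s hs
    simp [blank] at hs
  · intro k
    exact Or.inl rfl
  · intro l v o ho
    have ho' : ∀ k, o k ∈ Entries m k₀ k := by
      intro k
      by_cases h : k = k₀
      · exact Or.inr (Or.inl h)
      · exact Or.inl (ho k h)
    refine ⟨⟨?_, ho'⟩, ⟨?_, ho'⟩⟩
    · intro s hs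
      simp only [Option.some.injEq] at hs
      rw [← hs]
      exact occ_self m l
    · intro s hs
      simp at hs
  · rintro ⟨⟨q, v⟩, o⟩ ⟨h1, h2⟩ ⟨⟨q', v'⟩, o'⟩ ⟨h3, h4⟩
    simp only at h1 h2 h3 h4
    rcases q with _ | q
    · exact ⟨by simp [rule0], h2⟩
    have hq : q ∈ Occ m := h1 q rfl
    cases q with
    | push k f q =>
      refine ⟨?_, update_mem h2 k (mem_entries_push hq v)⟩
      intro s hs
      simp only [rule0, Option.some.injEq] at hs
      rw [← hs]; exact occ_push hq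
    | peek k f q =>
      refine ⟨?_, h2⟩
      intro s hs
      simp only [rule0, Option.some.injEq] at hs
      rw [← hs]; exact occ_peek hq
    | pop k f q =>
      refine ⟨?_, update_mem h2 k (h4 k)⟩
      intro s hs
      simp only [rule0, Option.some.injEq] at hs
      rw [← hs]; exact occ_pop hq
    | load g q =>
      refine ⟨?_, h2⟩
      intro s hs
      simp only [rule0, Option.some.injEq] at hs
      rw [← hs]; exact occ_load hq
    | branch f q₁ q₂ =>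
      refine ⟨?_, h2⟩
      intro s hs
      simp only [rule0, Option.some.injEq] at hs
      rw [← hs]; exact occ_branch hq _
    | goto l =>
      refine ⟨?_, h2⟩
      intro s hs
      simp only [rule0, Option.some.injEq] at hs
      rw [← hs]; exact occ_self m _
    | halt => exact ⟨by simp [rule0], h2⟩
  · rintro ⟨⟨q, v⟩, o⟩ ⟨h1, h2⟩ b ⟨h3, h4⟩ c ⟨h5, h6⟩ d ⟨h7, h8⟩
    refine ⟨by simp [rule1], ?_⟩
    rcases q with _ | q
    · exact h6
    cases q with
    | push k f q => exact update_mem h6 k (h4 k)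
    | pop k f q => exact update_mem h6 k (h8 k)
    | peek k f q => exact h6
    | load g q => exact h6
    | branch f q₁ q₂ => exact h6
    | goto l => exact h6
    | halt => exact h6

end

/-- From a finite closed set of cells to a `Rule`. -/
theorem exists_rule {C : Type*} (G : Set C) (hG : G.Finite) (bl : C) (hbl : bl ∈ G)
    (r0 : C → C → C) (r1 : C → C → C → C → C) (acc : C → Prop)
    (h0 : ∀ a ∈ G, ∀ b ∈ G, r0 a b ∈ G)
    (h1 : ∀ a ∈ G, ∀ b ∈ G, ∀ c ∈ G, ∀ d ∈ G, r1 a b c d ∈ G) :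
    ∃ (R : Rule) (code : C → List Bool), (∀ c, (code c).length = R.b) ∧ Set.InjOn code G ∧
      R.bl = code bl ∧ (∀ a ∈ G, R.acc (code a) = true ↔ acc a) ∧
      (∀ a ∈ G, ∀ b ∈ G, R.R0 (code a) (code b) = code (r0 a b)) ∧
      (∀ a ∈ G, ∀ b ∈ G, ∀ c ∈ G, ∀ d ∈ G,
        R.R1 (code a) (code b) (code c) (code d) = code (r1 a b c d)) := by
  classical
  haveI : Finite G := hG
  obtain ⟨n, ⟨e⟩⟩ := Finite.exists_equiv_fin G
  let code : C → List Bool := fun c =>
    if h : c ∈ G then List.ofFn fun j : Fin n => decide (e ⟨c, h⟩ = j) else List.replicate n false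
  have hlen : ∀ c, (code c).length = n := by
    intro c
    simp only [code]
    split <;> simp
  have hinj : Set.InjOn code G := by
    intro a ha b hb hab
    simp only [code, dif_pos ha, dif_pos hb] at hab
    have h2 := List.ofFn_injective hab
    have h3 := congrFun h2 (e ⟨b, hb⟩)
    simp only [decide_true, decide_eq_true_eq] at h3
    have h4 := e.injective h3
    exact congrArg Subtype.val h4
  let dec : List Bool → C := fun u => if h : ∃ a ∈ G, code a = u then h.choose else bl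
  have hdec : ∀ a ∈ G, dec (code a) = a := by
    intro a ha
    have h : ∃ a' ∈ G, code a' = code a := ⟨a, ha, rfl⟩
    simp only [dec, dif_pos h]
    exact hinj h.choose_spec.1 ha h.choose_spec.2
  refine ⟨⟨n, code bl, fun u v => code (r0 (dec u) (dec v)),
    fun u v w x => code (r1 (dec u) (dec v) (dec w) (dec x)), fun u => decide (acc (dec u)),
    hlen _, fun _ _ => hlen _, fun _ _ _ _ => hlen _⟩, code, hlen, hinj, rfl, ?_, ?_, ?_⟩
  · intro a ha
    simp [hdec a ha]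
  · intro a ha b hb
    simp only [hdec a ha, hdec b hb]
  · intro a ha b hb c hc d hd
    simp only [hdec a ha, hdec b hb, hdec c hc, hdec d hd]

end Pool.Agent.Lib.CookLevin
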