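import Pool.Agent.Lib.CookLevin.Defs

/-!
# The dynamics of columns simulates the micro steps
-/

namespace Pool.Agent.Lib.CookLevin

open Turing

section

variable {K : Type} [DecidableEq K] {Γ : K → Type} {Λ σ : Type}

theorem length_micro (m : Λ → TM2.Stmt Γ Λ σ) (c : MCfg Γ Λ σ) (k : K) :
    ((micro m c).S k).length ≤ (c.S k).length + 1 := by
  obtain ⟨q, v, S⟩ := c
  cases q with
  | none => exact Nat.le_succ _
  | some q =>
    cases q with
    | push k' f q =>
      by_cases h : k = k'
      · subst h; simp [micro]
      · simp [micro, Function.update_of_ne h]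
    | peek k' f q => exact Nat.le_succ _
    | pop k' f q =>
      by_cases h : k = k'
      · subst h
        simp only [micro, Function.update_self, List.length_tail]
        omega
      · simp [micro, Function.update_of_ne h]
    | load a q => exact Nat.le_succ _
    | branch f q₁ q₂ => exact Nat.le_succ _
    | goto l => exact Nat.le_succ _
    | halt => exact Nat.le_succ _

theorem rule0_toCol (v₀ : σ) (m : Λ → TM2.Stmt Γ Λ σ) (c : MCfg Γ Λ σ) :
    rule0 m (toCol v₀ c 0) (toCol v₀ c 1) = toCol v₀ (micro m c) 0 := by
  obtain ⟨q, v, S⟩ := c
  cases q with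
  | none => rfl
  | some q =>
    cases q with
    | push k f q =>
      simp only [toCol, if_true, rule0, micro]
      congr 1
      funext k'
      by_cases h : k' = k
      · subst h; simp
      · simp [Function.update_of_ne h]
    | peek k f q =>
      simp only [toCol, if_true, rule0, micro, List.head?_eq_getElem?]
    | pop k f q =>
      simp only [toCol, if_true, rule0, micro, List.head?_eq_getElem?]
      congr 1
      funext k'
      by_cases h : k' = k
      · subst h; simp
      · simp [Function.update_of_ne h]
    | load a q => rfl
    | branch f q₁ q₂ => rfl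
    | goto l => rfl
    | halt => rfl

theorem rule1_toCol (v₀ : σ) (m : Λ → TM2.Stmt Γ Λ σ) (c : MCfg Γ Λ σ) (i : ℕ) (hi : i ≠ 0) :
    rule1 v₀ (toCol v₀ c 0) (toCol v₀ c (i - 1)) (toCol v₀ c i) (toCol v₀ c (i + 1)) =
      toCol v₀ (micro m c) i := by
  obtain ⟨j, rfl⟩ : ∃ j, i = j + 1 := ⟨i - 1, by omega⟩
  obtain ⟨q, v, S⟩ := c
  cases q with
  | none => rfl
  | some q =>
    cases q with
    | push k f q =>
      simp only [toCol, if_true, rule1, micro, Nat.succ_ne_zero, if_false, Nat.add_sub_cancel]
      congr 1
      funext k'
      by_cases h : k' = k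
      · subst h; simp
      · simp [Function.update_of_ne h]
    | peek k f q => rfl
    | pop k f q =>
      simp only [toCol, if_true, rule1, micro, Nat.succ_ne_zero, if_false]
      congr 1
      funext k'
      by_cases h : k' = k
      · subst h; simp
      · simp [Function.update_of_ne h]
    | load a q => rfl
    | branch f q₁ q₂ => rfl
    | goto l => rfl
    | halt => rfl

theorem colNext_toCol (v₀ : σ) (m : Λ → TM2.Stmt Γ Λ σ) (W : ℕ) (hW : 0 < W)
    (c : MCfg Γ Λ σ) (hc : ∀ k, (c.S k).length + 1 ≤ W) :
    colNext v₀ m W (toCol v₀ c) = toCol v₀ (micro m c) := by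
  funext i
  by_cases hi : i < W
  · by_cases h0 : i = 0
    · subst h0
      simp only [colNext, hi, if_true]
      exact rule0_toCol v₀ m c
    · simp only [colNext, hi, if_true, h0, if_false]
      exact rule1_toCol v₀ m c i h0
  · simp only [colNext, hi, if_false]
    have h0 : i ≠ 0 := by omega
    simp only [toCol, h0, if_false, blank]
    congr 1
    funext k
    have h1 := length_micro m c k
    have h2 := hc k
    exact (List.getElem?_eq_none (by omega)).symm

/-- The dynamics of the columns, truncated at `W`, simulates `T` micro steps if the heights of the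
stacks plus `T` are at most `W`. -/
theorem colNext_iterate (v₀ : σ) (m : Λ → TM2.Stmt Γ Λ σ) (W : ℕ) (hW : 0 < W)
    (c : MCfg Γ Λ σ) (T : ℕ) (hc : ∀ k, (c.S k).length + T ≤ W) :
    (colNext v₀ m W)^[T] (toCol v₀ c) = toCol v₀ ((micro m)^[T] c) := by
  induction T generalizing c with
  | zero => rfl
  | succ T ih =>
    rw [Function.iterate_succ_apply, Function.iterate_succ_apply,
      colNext_toCol v₀ m W hW c (fun k => by have := hc k; omega)]
    exact ih (micro m c) fun k => by
      have := hc k
      have := length_micro m c k
      omega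

end

end Pool.Agent.Lib.CookLevin
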