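import Pool.Agent.Lib.CookLevin.Sat

/-!
# Tableaux of local rules, micro steps of stack machines
-/

namespace Pool.Agent.Lib.CookLevin

open Turing

/-! ## Tableaux -/

/-- A local rule on cells which are words of `b` bits: the new cell `0` is computed from the
cells `0`, `1`, the new cell `i > 0` from the cells `0`, `i - 1`, `i`, `i + 1`. -/
structure Rule where
  /-- number of bits of a cell -/
  b : ℕ
  /-- the blank cell -/
  bl : List Bool
  /-- the new cell `0` -/
  R0 : List Bool → List Bool → List Bool
  /-- the new cell `i > 0` -/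
  R1 : List Bool → List Bool → List Bool → List Bool → List Bool
  /-- acceptance -/
  acc : List Bool → Bool
  hbl : bl.length = b
  h0 : ∀ u v, (R0 u v).length = b
  h1 : ∀ u v w x, (R1 u v w x).length = b

namespace Rule

variable (R : Rule)

/-- one step of the dynamics on the cells `0, ..., W - 1` -/
def next (W : ℕ) (c : ℕ → List Bool) : ℕ → List Bool := fun i =>
  if i < W then
    (if i = 0 then R.R0 (c 0) (c 1) else R.R1 (c 0) (c (i - 1)) (c i) (c (i + 1)))
  else R.bl

/-- all words of `n` bits -/
def allBits : ℕ → List (List Bool)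
  | 0 => [[]]
  | n + 1 => (allBits n).flatMap fun l => [false :: l, true :: l]

/-- The clause saying that the cell `i` at time `t` is different from `v`; there are the cells
`0, ..., W`. -/
def dif (W t i : ℕ) (v : List Bool) : List (ℕ × Bool) :=
  (List.range R.b).map fun j => ((t * (W + 1) + i) * R.b + j, !(v.getD j false))

/-- forbidden patterns for the cell `0` -/
def P0 : List (List Bool × List Bool × List Bool) :=
  ((allBits R.b).product ((allBits R.b).product (allBits R.b))).filter
    fun p => decide (p.2.2 ≠ R.R0 p.1 p.2.1)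

/-- forbidden patterns for the other cells -/
def P1 : List ((List Bool × List Bool) × (List Bool × List Bool) × List Bool) :=
  (((allBits R.b).product (allBits R.b)).product
    (((allBits R.b).product (allBits R.b)).product (allBits R.b))).filter
    fun p => decide (p.2.2 ≠ R.R1 p.1.1 p.1.2 p.2.1.1 p.2.1.2)

/-- the cell `i < W` at time `0` belongs to the list number `i` of `A` -/
def initCl (W : ℕ) (A : List (List (List Bool))) : List (List (ℕ × Bool)) :=
  (List.range W).flatMap fun i =>
    ((allBits R.b).filter fun v => decide (v ∉ A.getD i [])).map fun v => R.dif W 0 i v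

/-- the cell `W` is blank at all times -/
def edgeCl (T W : ℕ) : List (List (ℕ × Bool)) :=
  (List.range (T + 1)).flatMap fun t =>
    ((allBits R.b).filter fun v => decide (v ≠ R.bl)).map fun v => R.dif W t W v

/-- the cell `0` evolves according to the rule -/
def zeroCl (T W : ℕ) : List (List (ℕ × Bool)) :=
  (List.range T).flatMap fun t => R.P0.map fun p =>
    R.dif W t 0 p.1 ++ R.dif W t 1 p.2.1 ++ R.dif W (t + 1) 0 p.2.2

/-- the cells `1, ..., W - 1` evolve according to the rule -/
def stepCl (T W : ℕ) : List (List (ℕ × Bool)) :=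
  (List.range T).flatMap fun t => (List.range (W - 1)).flatMap fun i => R.P1.map fun p =>
    R.dif W t 0 p.1.1 ++ R.dif W t i p.1.2 ++ R.dif W t (i + 1) p.2.1.1 ++
      R.dif W t (i + 2) p.2.1.2 ++ R.dif W (t + 1) (i + 1) p.2.2

/-- the cell `0` at time `T` is accepting -/
def accCl (T W : ℕ) : List (List (ℕ × Bool)) :=
  ((allBits R.b).filter fun v => !(R.acc v)).map fun v => R.dif W T 0 v

/-- the tableau -/
def tableau (T W : ℕ) (A : List (List (List Bool))) : CNF :=
  ((T + 1) * (W + 1) * R.b,
    R.initCl W A ++ R.edgeCl T W ++ R.zeroCl T W ++ R.stepCl T W ++ R.accCl T W)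

end Rule

/-! ## Micro steps of TM2 machines -/

section

variable {K : Type} [DecidableEq K] {Γ : K → Type} {Λ σ : Type}

/-- Configurations for micro steps: the statement to be executed (`none`: halted), the
internal state, the stacks. -/
structure MCfg (Γ : K → Type) (Λ σ : Type) where
  /-- statement -/
  q : Option (TM2.Stmt Γ Λ σ)
  /-- internal state -/
  v : σ
  /-- stacks -/
  S : ∀ k, List (Γ k)

open TM2.Stmt in
/-- one micro step -/
def micro (m : Λ → TM2.Stmt Γ Λ σ) : MCfg Γ Λ σ → MCfg Γ Λ σ
  | ⟨none, v, S⟩ => ⟨none, v, S⟩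
  | ⟨some (push k f q), v, S⟩ => ⟨some q, v, Function.update S k (f v :: S k)⟩
  | ⟨some (peek k f q), v, S⟩ => ⟨some q, f v (S k).head?, S⟩
  | ⟨some (pop k f q), v, S⟩ => ⟨some q, f v (S k).head?, Function.update S k (S k).tail⟩
  | ⟨some (load a q), v, S⟩ => ⟨some q, a v, S⟩
  | ⟨some (branch f q₁ q₂), v, S⟩ => ⟨some (cond (f v) q₁ q₂), v, S⟩
  | ⟨some (goto l), v, S⟩ => ⟨some (m (l v)), v, S⟩
  | ⟨some halt, v, S⟩ => ⟨none, v, S⟩

/-- Columns: the statement and the internal state (only used in the column `0`), the entries of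
the stacks at some height. -/
abbrev Col (Γ : K → Type) (Λ σ : Type) := (Option (TM2.Stmt Γ Λ σ) × σ) × (∀ k, Option (Γ k))

/-- the column `i` of a configuration -/
def toCol (v₀ : σ) (c : MCfg Γ Λ σ) (i : ℕ) : Col Γ Λ σ :=
  (if i = 0 then (c.q, c.v) else (none, v₀), fun k => (c.S k)[i]?)

/-- the blank column -/
def blank (v₀ : σ) : Col Γ Λ σ := ((none, v₀), fun _ => none)

open TM2.Stmt in
/-- the new column `0`, computed from the columns `0`, `1` -/
def rule0 (m : Λ → TM2.Stmt Γ Λ σ) (a b : Col Γ Λ σ) : Col Γ Λ σ :=
  match a with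
  | ((none, v), S) => ((none, v), S)
  | ((some (push k f q), v), S) => ((some q, v), Function.update S k (some (f v)))
  | ((some (peek k f q), v), S) => ((some q, f v (S k)), S)
  | ((some (pop k f q), v), S) => ((some q, f v (S k)), Function.update S k (b.2 k))
  | ((some (load g q), v), S) => ((some q, g v), S)
  | ((some (branch f q₁ q₂), v), S) => ((some (cond (f v) q₁ q₂), v), S)
  | ((some (goto l), v), S) => ((some (m (l v)), v), S)
  | ((some halt, v), S) => ((none, v), S)

open TM2.Stmt in
/-- the new column `i > 0`, computed from the columns `0`, `i - 1`, `i`, `i + 1` -/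
def rule1 (v₀ : σ) (a b c d : Col Γ Λ σ) : Col Γ Λ σ :=
  ((none, v₀),
    match a.1.1 with
    | some (push k _ _) => Function.update c.2 k (b.2 k)
    | some (pop k _ _) => Function.update c.2 k (d.2 k)
    | _ => c.2)

/-- one step of the dynamics of columns, truncated at `W` -/
def colNext (v₀ : σ) (m : Λ → TM2.Stmt Γ Λ σ) (W : ℕ) (c : ℕ → Col Γ Λ σ) : ℕ → Col Γ Λ σ :=
  fun i =>
    if i < W then
      (if i = 0 then rule0 m (c 0) (c 1) else rule1 v₀ (c 0) (c (i - 1)) (c i) (c (i + 1)))
    else blank v₀

end

end Pool.Agent.Lib.CookLevin
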