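import Pool.Agent.Lib.CookLevin.Defs

/-!
# Micro steps simulate the steps of a stack machine
-/

namespace Pool.Agent.Lib.CookLevin

open Turing

section

variable {K : Type} [DecidableEq K] {Γ : K → Type} {Λ σ : Type}

/-- The number of micro steps which are needed for a statement. -/
def depth : TM2.Stmt Γ Λ σ → ℕ
  | .push _ _ q => depth q + 1
  | .peek _ _ q => depth q + 1
  | .pop _ _ q => depth q + 1
  | .load _ q => depth q + 1
  | .branch _ q₁ q₂ => max (depth q₁) (depth q₂) + 1
  | .goto _ => 1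
  | .halt => 1

/-- Configurations of the machine as configurations for micro steps. -/
def toM (m : Λ → TM2.Stmt Γ Λ σ) (c : TM2.Cfg Γ Λ σ) : MCfg Γ Λ σ :=
  ⟨c.l.map m, c.var, c.stk⟩

theorem micro_stepAux (m : Λ → TM2.Stmt Γ Λ σ) (q : TM2.Stmt Γ Λ σ) :
    ∀ (v : σ) (S : ∀ k, List (Γ k)),
      ∃ n ≤ depth q, (micro m)^[n] ⟨some q, v, S⟩ = toM m (TM2.stepAux q v S) := by
  induction q with
  | push k f q ih =>
    intro v S
    obtain ⟨n, hn, h⟩ := ih v (Function.update S k (f v :: S k))
    exact ⟨n + 1, by simp only [depth]; omega, by rw [Function.iterate_succ_apply]; exact h⟩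
  | peek k f q ih =>
    intro v S
    obtain ⟨n, hn, h⟩ := ih (f v (S k).head?) S
    exact ⟨n + 1, by simp only [depth]; omega, by rw [Function.iterate_succ_apply]; exact h⟩
  | pop k f q ih =>
    intro v S
    obtain ⟨n, hn, h⟩ := ih (f v (S k).head?) (Function.update S k (S k).tail)
    exact ⟨n + 1, by simp only [depth]; omega, by rw [Function.iterate_succ_apply]; exact h⟩
  | load a q ih =>
    intro v S
    obtain ⟨n, hn, h⟩ := ih (a v) S
    exact ⟨n + 1, by simp only [depth]; omega, by rw [Function.iterate_succ_apply]; exact h⟩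
  | branch f q₁ q₂ ih₁ ih₂ =>
    intro v S
    cases hf : f v with
    | true =>
      obtain ⟨n, hn, h⟩ := ih₁ v S
      refine ⟨n + 1, by simp only [depth]; omega, ?_⟩
      rw [Function.iterate_succ_apply]
      simp only [micro, TM2.stepAux, hf, cond_true]
      exact h
    | false =>
      obtain ⟨n, hn, h⟩ := ih₂ v S
      refine ⟨n + 1, by simp only [depth]; omega, ?_⟩
      rw [Function.iterate_succ_apply]
      simp only [micro, TM2.stepAux, hf, cond_false]
      exact h
  | goto l =>
    intro v S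
    exact ⟨1, by simp only [depth]; omega, rfl⟩
  | halt =>
    intro v S
    exact ⟨1, by simp only [depth]; omega, rfl⟩

theorem iterate_bind_none {α : Type*} (f : α → Option α) (n : ℕ) :
    (flip bind f)^[n] (none : Option α) = none := by
  induction n with
  | zero => rfl
  | succ n ih =>
    rw [Function.iterate_succ_apply]
    exact ih

theorem micro_steps (m : Λ → TM2.Stmt Γ Λ σ) (D : ℕ) (hD : ∀ l, depth (m l) ≤ D) (s : ℕ) :
    ∀ (c c' : TM2.Cfg Γ Λ σ), (flip bind (TM2.step m))^[s] (some c) = some c' →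
      ∃ n ≤ D * s, (micro m)^[n] (toM m c) = toM m c' := by
  induction s with
  | zero =>
    intro c c' h
    simp only [Function.iterate_zero, id_eq, Option.some.injEq] at h
    subst h
    exact ⟨0, Nat.zero_le _, rfl⟩
  | succ s ih =>
    intro c c' h
    rw [Function.iterate_succ_apply] at h
    obtain ⟨l, v, S⟩ := c
    cases l with
    | none =>
      have : flip bind (TM2.step m) (some (⟨none, v, S⟩ : TM2.Cfg Γ Λ σ)) = none := rfl
      rw [this, iterate_bind_none] at h
      cases h
    | some l =>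
      have : flip bind (TM2.step m) (some (⟨some l, v, S⟩ : TM2.Cfg Γ Λ σ)) =
        some (TM2.stepAux (m l) v S) := rfl
      rw [this] at h
      obtain ⟨n, hn, h1⟩ := ih _ _ h
      obtain ⟨k, hk, h2⟩ := micro_stepAux m (m l) v S
      refine ⟨n + k, ?_, ?_⟩
      · have := hD l
        rw [Nat.mul_succ]
        omega
      · rw [Function.iterate_add_apply]
        have h3 : toM m (⟨some l, v, S⟩ : TM2.Cfg Γ Λ σ) = ⟨some (m l), v, S⟩ := rfl
        rw [h3, h2, h1]

theorem micro_halted (m : Λ → TM2.Stmt Γ Λ σ) (v : σ) (S : ∀ k, List (Γ k)) (n : ℕ) :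
    (micro m)^[n] ⟨none, v, S⟩ = ⟨none, v, S⟩ := by
  induction n with
  | zero => rfl
  | succ n ih =>
    rw [Function.iterate_succ_apply]
    exact ih

/-- A number of micro steps which is at least a constant times the number of steps simulates the
machine up to halting. -/
theorem micro_eval [Fintype Λ] (m : Λ → TM2.Stmt Γ Λ σ) :
    ∃ D : ℕ, ∀ (s : ℕ) (l : Λ) (v : σ) (S : ∀ k, List (Γ k)) (v' : σ) (S' : ∀ k, List (Γ k)),
      (flip bind (TM2.step m))^[s] (some ⟨some l, v, S⟩) = some ⟨none, v', S'⟩ →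
      ∀ N, D * s ≤ N → (micro m)^[N] ⟨some (m l), v, S⟩ = ⟨none, v', S'⟩ := by
  refine ⟨Finset.univ.sup fun l => depth (m l), ?_⟩
  intro s l v S v' S' h N hN
  obtain ⟨n, hn, h1⟩ := micro_steps m (Finset.univ.sup fun l => depth (m l))
    (fun l => Finset.le_sup (f := fun l => depth (m l)) (Finset.mem_univ l)) s _ _ h
  have h3 : toM m (⟨some l, v, S⟩ : TM2.Cfg Γ Λ σ) = ⟨some (m l), v, S⟩ := rfl
  have h4 : toM m (⟨none, v', S'⟩ : TM2.Cfg Γ Λ σ) = ⟨none, v', S'⟩ := rfl
  rw [h3, h4] at h1
  obtain ⟨r, rfl⟩ : ∃ r, N = r + n := ⟨N - n, by omega⟩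
  rw [Function.iterate_add_apply, h1, micro_halted]

end

end Pool.Agent.Lib.CookLevin
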