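import Pool.Agent.Lib.CookLevin.Defs
import Pool.Agent.Lib.PolyTime.Bridge

/-!
# The tableau is computable in polynomial time
-/

namespace Pool.Agent.Lib.CookLevin

open Turing Pool.Agent.Lib.PolyTime Pool.Agent.Lib.PolyTime.PolyF

theorem polyF_natPoly {α : Type*} [TEnc α] {n : α → ℕ} (hn : PolyF n) (P : Polynomial ℕ) :
    PolyF (fun x => P.eval (n x)) := by
  induction P using Polynomial.induction_on' with
  | add p q hp hq => exact (hp.natAdd hq).congr fun x => by rw [Polynomial.eval_add]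
  | monomial k a =>
    exact ((PolyF.const a).natMul (hn.natPow k)).congr fun x => by rw [Polynomial.eval_monomial]

section
variable {α : Type*} [TEnc α] (R : Rule)

theorem polyF_dif {W t i : α → ℕ} {v : α → List Bool} (hW : PolyF W) (ht : PolyF t)
    (hi : PolyF i) (hv : PolyF v) : PolyF (fun x => R.dif (W x) (t x) (i x) (v x)) := by
  refine (PolyF.map (l := fun _ : α => List.range R.b)
    (h := fun x j => ((t x * (W x + 1) + i x) * R.b + j, !((v x).getD j false)))
    (PolyF.const _) ?_)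
  have hf : PolyF (fun p : α × ℕ => p.1) := fst'
  refine PolyF.pair ?_ ?_
  · exact ((((ht.comp hf).natMul (hW.comp hf).succ).natAdd (hi.comp hf)).natMul
      (PolyF.const R.b)).natAdd snd'
  · have h1 : PolyF (fun p : α × ℕ => ((v p.1)[p.2]?).getD false) :=
      PolyF.getD (PolyF.getElem? snd' (hv.comp hf)) (PolyF.const false)
    exact (PolyF.not h1).congr fun p => by rw [List.getD_eq_getElem?_getD]

theorem polyF_initCl {W : α → ℕ} {A : α → List (List (List Bool))} (hW : PolyF W)
    (hA : PolyF A) : PolyF (fun x => R.initCl (W x) (A x)) := by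
  refine PolyF.flatMap (l := fun x => List.range (W x))
    (h := fun x i => ((Rule.allBits R.b).filter fun v => decide (v ∉ (A x).getD i [])).map
      fun v => R.dif (W x) 0 i v) hW.range ?_
  refine PolyF.map (l := fun p : α × ℕ => (Rule.allBits R.b).filter
      fun v => decide (v ∉ (A p.1).getD p.2 []))
    (h := fun p v => R.dif (W p.1) 0 p.2 v) ?_ ?_
  · refine PolyF.filterProp (l := fun _ : α × ℕ => Rule.allBits R.b)
      (p := fun p v => v ∉ (A p.1).getD p.2 []) (PolyF.const _) ?_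
    have h1 : PolyF (fun q : (α × ℕ) × List Bool => ((A q.1.1)[q.1.2]?).getD []) :=
      PolyF.getD (PolyF.getElem? fst'.snd (hA.comp fst'.fst)) (PolyF.const [])
    have h2 : PolyF (fun q : (α × ℕ) × List Bool => (A q.1.1).getD q.1.2 []) :=
      h1.congr fun q => by rw [List.getD_eq_getElem?_getD]
    exact PolyF.decide_not (PolyF.mem (f := fun q : (α × ℕ) × List Bool => q.2) snd' h2)
  · exact polyF_dif R (hW.comp fst'.fst) (PolyF.const 0) fst'.snd snd'

theorem polyF_edgeCl {T W : α → ℕ} (hT : PolyF T) (hW : PolyF W) :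
    PolyF (fun x => R.edgeCl (T x) (W x)) := by
  refine PolyF.flatMap (l := fun x => List.range (T x + 1))
    (h := fun x t => ((Rule.allBits R.b).filter fun v => decide (v ≠ R.bl)).map
      fun v => R.dif (W x) t (W x) v) hT.succ.range ?_
  refine PolyF.map (l := fun _ : α × ℕ => (Rule.allBits R.b).filter fun v => decide (v ≠ R.bl))
    (h := fun p v => R.dif (W p.1) p.2 (W p.1) v) (PolyF.const _) ?_
  exact polyF_dif R (hW.comp fst'.fst) fst'.snd (hW.comp fst'.fst) snd'

theorem polyF_zeroCl {T W : α → ℕ} (hT : PolyF T) (hW : PolyF W) :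
    PolyF (fun x => R.zeroCl (T x) (W x)) := by
  refine PolyF.flatMap (l := fun x => List.range (T x))
    (h := fun x t => R.P0.map fun p =>
      R.dif (W x) t 0 p.1 ++ R.dif (W x) t 1 p.2.1 ++ R.dif (W x) (t + 1) 0 p.2.2) hT.range ?_
  refine PolyF.map (l := fun _ : α × ℕ => R.P0)
    (h := fun q p => R.dif (W q.1) q.2 0 p.1 ++ R.dif (W q.1) q.2 1 p.2.1 ++
      R.dif (W q.1) (q.2 + 1) 0 p.2.2) (PolyF.const _) ?_
  have hW' : PolyF (fun q : (α × ℕ) × (List Bool × List Bool × List Bool) => W q.1.1) :=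
    hW.comp fst'.fst
  have ht : PolyF (fun q : (α × ℕ) × (List Bool × List Bool × List Bool) => q.1.2) := fst'.snd
  have h1 : PolyF (fun q : (α × ℕ) × (List Bool × List Bool × List Bool) =>
      R.dif (W q.1.1) q.1.2 0 q.2.1) := polyF_dif R hW' ht (PolyF.const 0) snd'.fst
  have h2 : PolyF (fun q : (α × ℕ) × (List Bool × List Bool × List Bool) =>
      R.dif (W q.1.1) q.1.2 1 q.2.2.1) := polyF_dif R hW' ht (PolyF.const 1) snd'.snd.fst
  have h3 : PolyF (fun q : (α × ℕ) × (List Bool × List Bool × List Bool) =>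
      R.dif (W q.1.1) (q.1.2 + 1) 0 q.2.2.2) :=
    polyF_dif R hW' ht.succ (PolyF.const 0) snd'.snd.snd
  exact (h1.append h2).append h3

theorem polyF_step_one {ι : Type*} [TEnc ι] {W t i : ι → ℕ}
    {p : ι → (List Bool × List Bool) × (List Bool × List Bool) × List Bool}
    (hW : PolyF W) (ht : PolyF t) (hi : PolyF i) (hp : PolyF p) :
    PolyF (fun x => R.dif (W x) (t x) 0 (p x).1.1 ++ R.dif (W x) (t x) (i x) (p x).1.2 ++
      R.dif (W x) (t x) (i x + 1) (p x).2.1.1 ++
      R.dif (W x) (t x) (i x + 2) (p x).2.1.2 ++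
      R.dif (W x) (t x + 1) (i x + 1) (p x).2.2) := by
  have h1 := polyF_dif R hW ht (PolyF.const 0) hp.fst.fst
  have h2 := polyF_dif R hW ht hi hp.fst.snd
  have h3 := polyF_dif R hW ht hi.succ hp.snd.fst.fst
  have h4 := polyF_dif R hW ht hi.succ.succ hp.snd.fst.snd
  have h5 := polyF_dif R hW ht.succ hi.succ hp.snd.snd
  exact (((h1.append h2).append h3).append h4).append h5

theorem polyF_step_two (L : List ((List Bool × List Bool) × (List Bool × List Bool) × List Bool))
    {W : α → ℕ} (hW : PolyF W) : PolyF (fun r : (α × ℕ) × ℕ => L.map fun p =>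
      R.dif (W r.1.1) r.1.2 0 p.1.1 ++ R.dif (W r.1.1) r.1.2 r.2 p.1.2 ++
      R.dif (W r.1.1) r.1.2 (r.2 + 1) p.2.1.1 ++
      R.dif (W r.1.1) r.1.2 (r.2 + 2) p.2.1.2 ++
      R.dif (W r.1.1) (r.1.2 + 1) (r.2 + 1) p.2.2) :=
  PolyF.map (l := fun _ : (α × ℕ) × ℕ => L)
    (h := fun r p => R.dif (W r.1.1) r.1.2 0 p.1.1 ++ R.dif (W r.1.1) r.1.2 r.2 p.1.2 ++
      R.dif (W r.1.1) r.1.2 (r.2 + 1) p.2.1.1 ++
      R.dif (W r.1.1) r.1.2 (r.2 + 2) p.2.1.2 ++
      R.dif (W r.1.1) (r.1.2 + 1) (r.2 + 1) p.2.2) (PolyF.const _)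
    (polyF_step_one R (hW.comp fst'.fst.fst) fst'.fst.snd fst'.snd snd')

/-- the clauses of one step for one cell -/
def stepBody (W : ℕ) (L : List ((List Bool × List Bool) × (List Bool × List Bool) × List Bool))
    (t i : ℕ) : List (List (ℕ × Bool)) :=
  L.map fun p => R.dif W t 0 p.1.1 ++ R.dif W t i p.1.2 ++ R.dif W t (i + 1) p.2.1.1 ++
      R.dif W t (i + 2) p.2.1.2 ++ R.dif W (t + 1) (i + 1) p.2.2

omit [TEnc α] in
theorem stepCl_eq (T W : ℕ) : R.stepCl T W =
    (List.range T).flatMap fun t => (List.range (W - 1)).flatMap fun i =>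
      stepBody R W R.P1 t i := rfl

theorem polyF_stepBody (L : List ((List Bool × List Bool) × (List Bool × List Bool) × List Bool))
    {W : α → ℕ} (hW : PolyF W) :
    PolyF (fun r : (α × ℕ) × ℕ => stepBody R (W r.1.1) L r.1.2 r.2) :=
  (polyF_step_two R L hW).congr fun _ => rfl

theorem polyF_two_loops {γ : Type*} [TEnc γ] {W T : α → ℕ} (hT : PolyF T) (hW : PolyF W)
    {h : α → ℕ → ℕ → List γ} (hh : PolyF (fun r : (α × ℕ) × ℕ => h r.1.1 r.1.2 r.2)) :
    PolyF (fun x => (List.range (T x)).flatMap fun t =>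
      (List.range (W x - 1)).flatMap fun i => h x t i) := by
  have h2 : PolyF (fun q : α × ℕ => (List.range (W q.1 - 1)).flatMap fun i => h q.1 q.2 i) :=
    PolyF.flatMap (l := fun q : α × ℕ => List.range (W q.1 - 1))
      (h := fun q i => h q.1 q.2 i) (hW.comp fst').pred.range hh
  exact PolyF.flatMap (l := fun x => List.range (T x))
    (h := fun x t => (List.range (W x - 1)).flatMap fun i => h x t i) hT.range h2

theorem polyF_stepCl {T W : α → ℕ} (hT : PolyF T) (hW : PolyF W) :
    PolyF (fun x => R.stepCl (T x) (W x)) :=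
  (polyF_two_loops hT hW (h := fun x t i => stepBody R (W x) R.P1 t i)
    (polyF_stepBody R R.P1 hW)).congr fun x => (stepCl_eq R (T x) (W x)).symm

theorem polyF_accCl {T W : α → ℕ} (hT : PolyF T) (hW : PolyF W) :
    PolyF (fun x => R.accCl (T x) (W x)) := by
  refine PolyF.map (l := fun _ : α => (Rule.allBits R.b).filter fun v => !(R.acc v))
    (h := fun x v => R.dif (W x) (T x) 0 v) (PolyF.const _) ?_
  exact polyF_dif R (hW.comp fst') (hT.comp fst') (PolyF.const 0) snd'

end

theorem polyF_tableau (R : Rule) :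
    PolyF (fun x : ℕ × ℕ × List (List (List Bool)) => R.tableau x.1 x.2.1 x.2.2) := by
  have hT : PolyF (fun x : ℕ × ℕ × List (List (List Bool)) => x.1) := fst'
  have hW : PolyF (fun x : ℕ × ℕ × List (List (List Bool)) => x.2.1) := snd'.fst
  have hA : PolyF (fun x : ℕ × ℕ × List (List (List Bool)) => x.2.2) := snd'.snd
  exact ((hT.succ.natMul hW.succ).natMul (PolyF.const R.b)).pair
    (((((polyF_initCl R hW hA).append (polyF_edgeCl R hT hW)).append
      (polyF_zeroCl R hT hW)).append (polyF_stepCl R hT hW)).append (polyF_accCl R hT hW))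

end Pool.Agent.Lib.CookLevin
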