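import Pool.Agent.Lib.CookLevin.Tab
import Pool.Agent.Lib.CookLevin.TabPoly
import Pool.Agent.Lib.CookLevin.Cols
import Pool.Agent.Lib.CookLevin.Micro
import Pool.Agent.Lib.CookLevin.Closed

/-!
# The Cook-Levin theorem, parsimonious form: every function in #P is the number of satisfying
assignments of a CNF computed in polynomial time
-/

namespace Pool.Agent.Lib.CookLevin

open Turing Pool.Agent.Lib.PolyTime

/-- The allowed symbols of the input stack: the input `x`, the separator, the witness of length
`p`, and `e` blank cells. -/
def allowed (x : List Bool) (p e : ℕ) : List (List (Option (Option Bool))) :=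
  x.map (fun b => [some (some b)]) ++ ([[some none]] ++
    (List.replicate p [some (some false), some (some true)] ++ List.replicate e [none]))

/-- The rows of allowed cells. -/
def rows (cod0 cod1 : Option (Option Bool) → List Bool)
    (B : List (List (Option (Option Bool)))) : List (List (List Bool)) :=
  (B.headD []).map cod0 :: B.tail.map fun s => s.map cod1

/-- the code of the symbol `o` in the column `i` -/
def cod (cod0 cod1 : Option (Option Bool) → List Bool) (i : ℕ) (o : Option (Option Bool)) :
    List Bool := if i = 0 then cod0 o else cod1 o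

theorem rows_getD (cod0 cod1 : Option (Option Bool) → List Bool)
    (B : List (List (Option (Option Bool)))) (i : ℕ) :
    (rows cod0 cod1 B).getD i [] = (B.getD i []).map (cod cod0 cod1 i) := by
  rcases i with _ | i
  · cases B <;> simp [rows, cod]
  · cases B with
    | nil => simp [rows]
    | cons s B =>
      simp only [rows, List.tail_cons, List.getD_cons_succ]
      by_cases h : i < B.length
      · rw [List.getD_eq_getElem _ _ (by simpa using h), List.getD_eq_getElem _ _ h]
        simp [cod]
      · rw [List.getD_eq_default _ _ (by simpa using h), List.getD_eq_default _ _ (by simpa using h)]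
        simp

theorem polyF_replicate {α β : Type*} [TEnc α] [TEnc β] {n : α → ℕ} {b : α → β} (hn : PolyF n)
    (hb : PolyF b) : PolyF (fun x => List.replicate (n x) (b x)) :=
  (hn.range.map (h := fun x _ => b x) (hb.comp PolyF.fst')).congr fun x => by simp

theorem polyF_allowed {α : Type*} [TEnc α] {x : α → List Bool} {p e : α → ℕ} (hx : PolyF x)
    (hp : PolyF p) (he : PolyF e) : PolyF (fun a => allowed (x a) (p a) (e a)) :=
  (hx.map (h := fun _ b => [some (some b)]) (PolyF.snd'.some.some.singleton)).append
    ((PolyF.const _).append ((polyF_replicate hp (PolyF.const _)).append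
      (polyF_replicate he (PolyF.const _))))

theorem polyF_rows {α : Type*} [TEnc α] (cod0 cod1 : Option (Option Bool) → List Bool)
    {B : α → List (List (Option (Option Bool)))} (hB : PolyF B) :
    PolyF (fun a => rows cod0 cod1 (B a)) :=
  ((((hB.head?.getD (PolyF.const [])).map (h := fun _ o => cod0 o)
      ((PolyF.ofFinite cod0).comp PolyF.snd')).cons
    (hB.tail.map (h := fun _ s => s.map cod1) (PolyF.snd'.map (h := fun _ o => cod1 o)
      ((PolyF.ofFinite cod1).comp PolyF.snd')))).congr fun a => by
        rw [rows, List.headD_eq_head?_getD])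

theorem length_pairWord (x w : List Bool) : (pairWord (x, w)).length = x.length + 1 + w.length := by
  simp [pairWord]
  omega

theorem pairWord_get (x w : List Bool) (i : ℕ) :
    (pairWord (x, w))[i]? = if h : i < x.length then some (some x[i])
      else if i = x.length then some none
      else (w[i - x.length - 1]?).map some := by
  unfold pairWord
  split_ifs with h h'
  · rw [List.getElem?_append_left (by simpa using h)]
    simp [h]
  · subst h'
    rw [List.getElem?_append_right (by simp)]
    simp
  · rw [List.getElem?_append_right (by simpa using h)]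
    have : i - x.length = (i - x.length - 1) + 1 := by omega
    simp only [List.length_map]
    rw [this, List.getElem?_cons_succ, List.getElem?_map]
    rfl

theorem allowed_getD (x : List Bool) (p e i : ℕ) :
    (allowed x p e).getD i [] = if h : i < x.length then [some (some x[i])]
      else if i = x.length then [some none]
      else if i < x.length + 1 + p then [some (some false), some (some true)]
      else if i < x.length + 1 + p + e then [none] else [] := by
  unfold allowed
  split_ifs with h h' h'' h3
  · rw [List.getD_append _ _ _ _ (by simpa using h), List.getD_eq_getElem _ _ (by simpa using h)]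
    simp
  · subst h'
    rw [List.getD_append_right _ _ _ _ (by simp)]
    simp
  · rw [List.getD_append_right _ _ _ _ (by simpa using h)]
    rw [List.getD_append_right _ _ _ _ (by simp; omega)]
    rw [List.getD_append _ _ _ _ (by simp; omega),
      List.getD_eq_getElem _ _ (by simp; omega)]
    simp
  · rw [List.getD_append_right _ _ _ _ (by simpa using h)]
    rw [List.getD_append_right _ _ _ _ (by simp; omega)]
    rw [List.getD_append_right _ _ _ _ (by simp; omega),
      List.getD_eq_getElem _ _ (by simp; omega)]
    simp
  · rw [List.getD_eq_default]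
    simp
    omega

/-- The words are in bijection with the rows of allowed cells. -/
theorem card_rows (x : List Bool) (p e : ℕ) (cod0 cod1 : Option (Option Bool) → List Bool)
    (h0 : Function.Injective cod0) (h1 : Function.Injective cod1) (P : (ℕ → List Bool) → Prop) :
    Nat.card {w : List Bool // w.length = p ∧
      P (fun i => cod cod0 cod1 i ((pairWord (x, w))[i]?))} =
    Nat.card {c : ℕ → List Bool //
      (∀ i < x.length + 1 + p + e, c i ∈ (rows cod0 cod1 (allowed x p e)).getD i []) ∧
      (∀ i, x.length + 1 + p + e ≤ i → c i = cod1 none) ∧ P c} := by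
  have hc : ∀ i, Function.Injective (cod cod0 cod1 i) := by
    intro i
    unfold cod
    split_ifs
    exacts [h0, h1]
  have hmem : ∀ w : List Bool, w.length = p → ∀ i < x.length + 1 + p + e,
      cod cod0 cod1 i ((pairWord (x, w))[i]?) ∈ (rows cod0 cod1 (allowed x p e)).getD i [] := by
    intro w hw i hi
    rw [rows_getD, allowed_getD, pairWord_get]
    split_ifs with h h' h''
    · simp
    · simp
    · refine List.mem_map_of_mem ?_
      have : i - x.length - 1 < w.length := by omega
      rw [List.getElem?_eq_getElem this]
      cases w[i - x.length - 1] <;> simp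
    · refine List.mem_map_of_mem ?_
      rw [List.getElem?_eq_none (by omega)]
      simp
  have hbl : ∀ w : List Bool, w.length = p → ∀ i, x.length + 1 + p + e ≤ i →
      cod cod0 cod1 i ((pairWord (x, w))[i]?) = cod1 none := by
    intro w hw i hi
    rw [List.getElem?_eq_none (by rw [length_pairWord]; omega)]
    unfold cod
    rw [if_neg (by omega)]
  refine Nat.card_congr (Equiv.ofBijective (fun w => ⟨fun i =>
    cod cod0 cod1 i ((pairWord (x, w.1))[i]?), hmem w.1 w.2.1, hbl w.1 w.2.1, w.2.2⟩) ⟨?_, ?_⟩)
  · intro w w' h
    simp only [Subtype.mk.injEq] at h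
    have h' : pairWord (x, w.1) = pairWord (x, w'.1) :=
      List.ext_getElem? fun i => hc i (congrFun h i)
    have h'' : w.1.map some = w'.1.map (some : Bool → Option Bool) := by
      simpa [pairWord] using h'
    exact Subtype.ext ((List.map_injective_iff.2 (Option.some_injective _)) h'')
  · rintro ⟨c, hc1, hc2, hc3⟩
    classical
    set w : List Bool := (List.range p).map fun j =>
      decide (c (x.length + 1 + j) = cod cod0 cod1 (x.length + 1 + j) (some (some true))) with hw
    have hwl : w.length = p := by simp [hw]
    have key : (fun i => cod cod0 cod1 i ((pairWord (x, w))[i]?)) = c := by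
      funext i
      by_cases hi : i < x.length + 1 + p + e
      · have h := hc1 i hi
        rw [rows_getD, allowed_getD] at h
        rw [pairWord_get]
        split_ifs at h ⊢ with h1 h2 h3
        · rw [List.map_singleton, List.mem_singleton] at h
          exact h.symm
        · rw [List.map_singleton, List.mem_singleton] at h
          exact h.symm
        · have h4 : i - x.length - 1 < w.length := by omega
          have h5 : x.length + 1 + (i - x.length - 1) = i := by omega
          rw [List.getElem?_eq_getElem h4]
          simp only [hw, List.getElem_map, List.getElem_range, h5, Option.map_some]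
          simp only [List.map_cons, List.map_nil, List.mem_cons, List.not_mem_nil, or_false] at h
          by_cases h6 : c i = cod cod0 cod1 i (some (some true))
          · rw [h6]
            simp
          · rw [decide_eq_false h6]
            rcases h with h | h
            · exact h.symm
            · exact absurd h h6
        · rw [List.getElem?_eq_none (by omega)]
          rw [List.map_singleton, List.mem_singleton] at h
          simpa using h.symm
      · rw [hc2 i (by omega)]
        exact hbl w hwl i (by omega)
    exact ⟨⟨w, hwl, by rw [key]; exact hc3⟩, Subtype.ext key⟩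

section

variable {K : Type} [DecidableEq K] {Γ : K → Type} {Λ σ : Type}

theorem next_iterate (v₀ : σ) (m : Λ → TM2.Stmt Γ Λ σ) (G : Set (Col Γ Λ σ))
    (hbl : blank v₀ ∈ G) (h0 : ∀ a ∈ G, ∀ b ∈ G, rule0 m a b ∈ G)
    (h1 : ∀ a ∈ G, ∀ b ∈ G, ∀ c ∈ G, ∀ d ∈ G, rule1 v₀ a b c d ∈ G)
    (R : Rule) (code : Col Γ Λ σ → List Bool) (hb : R.bl = code (blank v₀))
    (r0 : ∀ a ∈ G, ∀ b ∈ G, R.R0 (code a) (code b) = code (rule0 m a b))
    (r1 : ∀ a ∈ G, ∀ b ∈ G, ∀ c ∈ G, ∀ d ∈ G,
      R.R1 (code a) (code b) (code c) (code d) = code (rule1 v₀ a b c d))
    (W : ℕ) (c : ℕ → Col Γ Λ σ) (hc : ∀ i, c i ∈ G) (T : ℕ) :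
    (R.next W)^[T] (fun i => code (c i)) = (fun i => code ((colNext v₀ m W)^[T] c i)) ∧
      ∀ i, (colNext v₀ m W)^[T] c i ∈ G := by
  induction T generalizing c with
  | zero => exact ⟨rfl, hc⟩
  | succ T ih =>
    have hc' : ∀ i, colNext v₀ m W c i ∈ G := by
      intro i
      unfold colNext
      split_ifs
      exacts [h0 _ (hc _) _ (hc _), h1 _ (hc _) _ (hc _) _ (hc _) _ (hc _), hbl]
    have e : R.next W (fun i => code (c i)) = fun i => code (colNext v₀ m W c i) := by
      funext i
      unfold Rule.next colNext
      split_ifs
      exacts [r0 _ (hc _) _ (hc _), r1 _ (hc _) _ (hc _) _ (hc _) _ (hc _), hb]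
    rw [Function.iterate_succ_apply, Function.iterate_succ_apply, e]
    exact ih _ hc'

end

/-- The column `i` of the initial configuration in terms of the symbol of the input stack. -/
def iniCol (tm : FinTM2) (q : Option (TM2.Stmt tm.Γ tm.Λ tm.σ)) {I : Type} (e : tm.Γ tm.k₀ ≃ I)
    (o : Option I) : Col tm.Γ tm.Λ tm.σ :=
  ((q, tm.initialState), fun k => if h : k = tm.k₀ then h ▸ o.map e.invFun else none)

theorem iniCol_injective (tm : FinTM2) (q : Option (TM2.Stmt tm.Γ tm.Λ tm.σ)) {I : Type}
    (e : tm.Γ tm.k₀ ≃ I) : Function.Injective (iniCol tm q e) := by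
  intro o o' h
  have h1 := congrFun (congrArg Prod.snd h) tm.k₀
  simp only [iniCol, dif_pos] at h1
  exact Option.map_injective e.symm.injective h1

theorem toCol_init (tm : FinTM2) {I : Type} (e : tm.Γ tm.k₀ ≃ I) (l : List I) (i : ℕ) :
    toCol tm.initialState ⟨some (tm.m tm.main), tm.initialState,
      (initList tm (l.map e.invFun)).stk⟩ i =
    iniCol tm (if i = 0 then some (tm.m tm.main) else none) e (l[i]?) := by
  unfold toCol iniCol initList
  refine Prod.ext (by dsimp only; split_ifs <;> rfl) ?_
  funext k
  dsimp only
  by_cases h : k = tm.k₀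
  · subst h
    simp
  · simp [h]

/-- The Cook-Levin theorem, parsimonious form. -/
theorem cook_levin {f : List Bool → ℕ} (hf : SharpP f) :
    ∃ g : List Bool → CNF, PolyF g ∧ (∀ x, CNF.Wf (g x)) ∧ ∀ x, f x = count (g x) := by
  classical
  obtain ⟨p, V, ⟨M⟩, hV⟩ := hf
  obtain ⟨⟨tm, ea, eb⟩, time, out⟩ := M
  have := tm.kFin
  have := tm.ΛFin
  have := tm.σFin
  have := tm.Γk₀Fin
  obtain ⟨D, hD⟩ := micro_eval tm.m
  obtain ⟨G, hG, hblG, hini, hr0, hr1⟩ := exists_closed tm.initialState tm.m tm.k₀
  obtain ⟨R, code, hlen, hinj, hRbl, hacc, hR0, hR1⟩ := exists_rule G hG (blank tm.initialState)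
    hblG (rule0 tm.m) (rule1 tm.initialState) (fun c => c.2 tm.k₁ = some (eb.invFun true)) hr0 hr1
  set cod0 : Option (Option Bool) → List Bool :=
    fun o => code (iniCol tm (some (tm.m tm.main)) ea o) with hcod0
  set cod1 : Option (Option Bool) → List Bool := fun o => code (iniCol tm none ea o) with hcod1
  have g0 : ∀ o, iniCol tm (some (tm.m tm.main)) ea o ∈ G := fun o =>
    (hini _ _ _ fun k hk => by simp [hk]).1
  have g1 : ∀ o, iniCol tm none ea o ∈ G := fun o =>
    (hini tm.main _ _ fun k hk => by simp [hk]).2
  have i0 : Function.Injective cod0 := fun o o' h =>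
    iniCol_injective tm _ ea (hinj (g0 o) (g0 o') h)
  have i1 : Function.Injective cod1 := fun o o' h =>
    iniCol_injective tm _ ea (hinj (g1 o) (g1 o') h)
  have hbl1 : R.bl = cod1 none := by
    rw [hRbl, hcod1]
    congr 1
    unfold blank iniCol
    refine Prod.ext rfl ?_
    funext k
    dsimp only
    split_ifs with h
    · subst h
      rfl
    · rfl
  set L : List Bool → ℕ := fun x => x.length + 1 + p.eval x.length with hL
  set T : List Bool → ℕ := fun x => D * time.eval (L x) with hT
  set W : List Bool → ℕ := fun x => L x + T x with hW
  refine ⟨fun x => R.tableau (T x) (W x) (rows cod0 cod1 (allowed x (p.eval x.length) (T x))),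
    ?_, fun x => R.wf_tableau _ _ _, fun x => ?_⟩
  · have hpF : PolyF (fun x : List Bool => p.eval x.length) := polyF_natPoly PolyF.id.length p
    have hLF : PolyF L := (PolyF.id.length.natAdd (PolyF.const 1)).natAdd hpF
    have hTF : PolyF T := (PolyF.const D).natMul (polyF_natPoly hLF time)
    have hWF : PolyF W := hLF.natAdd hTF
    have hA : PolyF (fun x => rows cod0 cod1 (allowed x (p.eval x.length) (T x))) :=
      polyF_rows cod0 cod1 (polyF_allowed PolyF.id hpF hTF)
    exact (polyF_tableau R).comp (hTF.pair (hWF.pair hA))
  · rw [R.count_tableau _ _ (by simp only [hW, hL]; omega)]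
    · rw [hV x, hbl1]
      rw [← card_rows x (p.eval x.length) (T x) cod0 cod1 i0 i1
        (fun c => R.acc ((R.next (W x))^[T x] c 0) = true)]
      refine Nat.card_congr (Equiv.subtypeEquivRight fun w => ?_)
      refine and_congr_right fun hw => ?_
      -- the run
      set S₀ := (initList tm ((pairWord (x, w)).map ea.invFun)).stk with hS₀
      have e1 : (fun i => cod cod0 cod1 i ((pairWord (x, w))[i]?)) =
          fun i => code (toCol tm.initialState ⟨some (tm.m tm.main), tm.initialState, S₀⟩ i) := by
        funext i
        rw [hS₀, toCol_init]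
        unfold cod
        split_ifs <;> rfl
      have hin : ∀ i, toCol tm.initialState ⟨some (tm.m tm.main), tm.initialState, S₀⟩ i ∈ G := by
        intro i
        rw [hS₀, toCol_init]
        split_ifs
        exacts [g0 _, g1 _]
      obtain ⟨e2, e3⟩ := next_iterate tm.initialState tm.m G hblG hr0 hr1 R code hRbl hR0 hR1 (W x)
        (toCol tm.initialState ⟨some (tm.m tm.main), tm.initialState, S₀⟩) hin (T x)
      have e4 := colNext_iterate tm.initialState tm.m (W x) (by simp only [hW, hL]; omega)
        ⟨some (tm.m tm.main), tm.initialState, S₀⟩ (T x) (by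
          intro k
          by_cases hk : k = tm.k₀
          · subst hk
            simp [hS₀, initList, hW, hL, length_pairWord, hw]
          · simp [hS₀, initList, hk, hW, hL])
      obtain ⟨⟨s, hs⟩, hs'⟩ := out (x, w)
      have e5 := hD s tm.main tm.initialState S₀ tm.initialState
        (haltList tm ((Computability.encodeBool (V (x, w))).map eb.invFun)).stk hs (T x) (by
          have : (pairWord (x, w)).length = L x := by rw [length_pairWord, hw]
          rw [this] at hs'
          exact Nat.mul_le_mul_left _ hs')
      rw [e1, e2]
      dsimp only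
      rw [hacc _ (e3 0), e4, e5]
      simp only [toCol, haltList, dif_pos]
      cases h : V (x, w)
      · simp [Computability.encodeBool]
      · simp [Computability.encodeBool]
    · have h : ∀ (s : List (Option (Option Bool))) (v : List Bool),
          (v ∈ s.map cod0 ∨ v ∈ s.map cod1) → v.length = R.b := by
        intro s v hv
        rcases hv with hv | hv
        · obtain ⟨o, -, rfl⟩ := List.mem_map.1 hv
          exact hlen _
        · obtain ⟨o, -, rfl⟩ := List.mem_map.1 hv
          exact hlen _
      intro S hS v hv
      rcases List.mem_cons.1 hS with rfl | hS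
      · exact h _ v (Or.inl hv)
      · obtain ⟨s, -, rfl⟩ := List.mem_map.1 hS
        exact h _ v (Or.inr hv)

end Pool.Agent.Lib.CookLevin
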