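import Mathlib

/-!
# The class #P and the number of satisfying assignments of a CNF
-/

namespace Pool.Agent.Lib.CookLevin

open Turing

/-- A CNF: the number of variables and the list of clauses; the literal `(v, b)` says that the
variable number `v` has the value `b`. -/
abbrev CNF := ℕ × List (List (ℕ × Bool))

/-- All variables which occur are variables of the formula. -/
def CNF.Wf (φ : CNF) : Prop := ∀ c ∈ φ.2, ∀ l ∈ c, l.1 < φ.1

/-- The number of satisfying assignments. -/
noncomputable def count (φ : CNF) : ℕ :=
  Nat.card {a : Fin φ.1 → Bool // ∀ c ∈ φ.2, ∃ l ∈ c, ∃ h : l.1 < φ.1, a ⟨l.1, h⟩ = l.2}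

/-- The word of a pair of words. -/
def pairWord (p : List Bool × List Bool) : List (Option Bool) :=
  p.1.map some ++ none :: p.2.map some

/-- The class #P: `f x` is the number of witnesses `w` of length `p(|x|)` with `V (x, w)`, for a
polynomial `p` and a predicate `V` decidable in polynomial time by a Turing machine. -/
def SharpP (f : List Bool → ℕ) : Prop :=
  ∃ (p : Polynomial ℕ) (V : List Bool × List Bool → Bool),
    Nonempty (TM2ComputableInPolyTime pairWord Computability.encodeBool V) ∧
    ∀ x, f x = Nat.card {w : List Bool // w.length = p.eval x.length ∧ V (x, w) = true}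

end Pool.Agent.Lib.CookLevin
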