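import Pool.Agent.Lib.CookLevin.Defs

/-!
# The number of satisfying assignments of a tableau
-/

namespace Pool.Agent.Lib.CookLevin

namespace Rule

theorem mem_allBits {n : ℕ} {v : List Bool} : v ∈ allBits n ↔ v.length = n := by
  induction n generalizing v with
  | zero => simp [allBits, List.length_eq_zero_iff]
  | succ n ih =>
    rw [allBits, List.mem_flatMap]
    constructor
    · rintro ⟨l, hl, h⟩
      rw [ih] at hl
      simp only [List.mem_cons, List.not_mem_nil, or_false] at h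
      rcases h with rfl | rfl <;> simp [hl]
    · intro h
      match v, h with
      | b :: l, h =>
        refine ⟨l, ih.2 (by simpa using h), ?_⟩
        cases b <;> simp

theorem mem_prod {α β : Type*} {l : List α} {m : List β} {p : α × β} :
    p ∈ l.product m ↔ p.1 ∈ l ∧ p.2 ∈ m := by
  obtain ⟨a, b⟩ := p
  exact List.mem_product

variable (R : Rule)

/-- a clause is satisfied by an assignment of all natural numbers -/
def Sat (e : ℕ → Bool) (c : List (ℕ × Bool)) : Prop := ∃ l ∈ c, e l.1 = l.2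

theorem sat_append {e : ℕ → Bool} {c d : List (ℕ × Bool)} :
    Sat e (c ++ d) ↔ Sat e c ∨ Sat e d := by
  simp only [Sat, List.mem_append]
  constructor
  · rintro ⟨l, h | h, h1⟩
    · exact Or.inl ⟨l, h, h1⟩
    · exact Or.inr ⟨l, h, h1⟩
  · rintro (⟨l, h, h1⟩ | ⟨l, h, h1⟩)
    · exact ⟨l, Or.inl h, h1⟩
    · exact ⟨l, Or.inr h, h1⟩

/-- the cell `i` at time `t` -/
def cell (W : ℕ) (e : ℕ → Bool) (t i : ℕ) : List Bool :=
  (List.range R.b).map fun j => e ((t * (W + 1) + i) * R.b + j)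

theorem length_cell (W : ℕ) (e : ℕ → Bool) (t i : ℕ) : (R.cell W e t i).length = R.b := by
  simp [cell]

theorem sat_dif {W : ℕ} {e : ℕ → Bool} {t i : ℕ} {v : List Bool} (hv : v.length = R.b) :
    Sat e (R.dif W t i v) ↔ R.cell W e t i ≠ v := by
  rw [Ne, List.ext_getElem_iff]
  simp only [length_cell, hv, true_and, not_forall]
  constructor
  · rintro ⟨l, hl, h⟩
    rw [dif, List.mem_map] at hl
    obtain ⟨j, hj, rfl⟩ := hl
    rw [List.mem_range] at hj
    refine ⟨j, hj, hj, ?_⟩
    simp only at h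
    rw [List.getD_eq_getElem _ _ (by omega)] at h
    simp only [cell, List.getElem_map, List.getElem_range, h]
    simp
  · rintro ⟨j, hj, _, h⟩
    refine ⟨_, List.mem_map.2 ⟨j, List.mem_range.2 hj, rfl⟩, ?_⟩
    simp only
    rw [List.getD_eq_getElem _ _ (by omega)]
    simp only [cell, List.getElem_map, List.getElem_range] at h
    revert h
    cases e ((t * (W + 1) + i) * R.b + j) <;> cases v[j] <;> simp

/-- the properties of the cells -/
structure Good (T W : ℕ) (A : List (List (List Bool))) (z : ℕ → ℕ → List Bool) : Prop where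
  init : ∀ i < W, z 0 i ∈ A.getD i []
  edge : ∀ t ≤ T, z t W = R.bl
  zero : ∀ t < T, z (t + 1) 0 = R.R0 (z t 0) (z t 1)
  step : ∀ t < T, ∀ i < W - 1, z (t + 1) (i + 1) = R.R1 (z t 0) (z t i) (z t (i + 1)) (z t (i + 2))
  acc : R.acc (z T 0) = true

theorem sat_initCl (W : ℕ) (A : List (List (List Bool))) (e : ℕ → Bool) :
    (∀ c ∈ R.initCl W A, Sat e c) ↔ ∀ i < W, R.cell W e 0 i ∈ A.getD i [] := by
  simp only [initCl, List.mem_flatMap, List.mem_range, List.mem_map, List.mem_filter,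
    decide_eq_true_eq, mem_allBits]
  constructor
  · intro h i hi
    by_contra hn
    have h1 := h _ ⟨i, hi, _, ⟨R.length_cell W e 0 i, hn⟩, rfl⟩
    rw [R.sat_dif (R.length_cell W e 0 i)] at h1
    exact h1 rfl
  · rintro h c ⟨i, hi, v, ⟨hv, hv1⟩, rfl⟩
    rw [R.sat_dif hv]
    rintro rfl
    exact hv1 (h i hi)

theorem sat_edgeCl (T W : ℕ) (e : ℕ → Bool) :
    (∀ c ∈ R.edgeCl T W, Sat e c) ↔ ∀ t ≤ T, R.cell W e t W = R.bl := by
  simp only [edgeCl, List.mem_flatMap, List.mem_range, List.mem_map, List.mem_filter,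
    decide_eq_true_eq, mem_allBits]
  constructor
  · intro h t ht
    by_contra hn
    have h1 := h _ ⟨t, by omega, _, ⟨R.length_cell W e t W, hn⟩, rfl⟩
    rw [R.sat_dif (R.length_cell W e t W)] at h1
    exact h1 rfl
  · rintro h c ⟨t, ht, v, ⟨hv, hv1⟩, rfl⟩
    rw [R.sat_dif hv]
    rintro rfl
    exact hv1 (h t (by omega))

theorem sat_accCl (T W : ℕ) (e : ℕ → Bool) :
    (∀ c ∈ R.accCl T W, Sat e c) ↔ R.acc (R.cell W e T 0) = true := by
  simp only [accCl, List.mem_map, List.mem_filter, mem_allBits, Bool.not_eq_true']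
  constructor
  · intro h
    by_contra hn
    have h1 := h _ ⟨_, ⟨R.length_cell W e T 0, by simpa using hn⟩, rfl⟩
    rw [R.sat_dif (R.length_cell W e T 0)] at h1
    exact h1 rfl
  · rintro h c ⟨v, ⟨hv, hv1⟩, rfl⟩
    rw [R.sat_dif hv]
    rintro rfl
    rw [h] at hv1
    simp at hv1

theorem sat_zeroCl (T W : ℕ) (e : ℕ → Bool) :
    (∀ c ∈ R.zeroCl T W, Sat e c) ↔
      ∀ t < T, R.cell W e (t + 1) 0 = R.R0 (R.cell W e t 0) (R.cell W e t 1) := by
  simp only [zeroCl, P0, List.mem_flatMap, List.mem_range, List.mem_map, List.mem_filter,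
    decide_eq_true_eq, mem_prod, mem_allBits, ne_eq]
  constructor
  · intro h t ht
    by_contra hn
    have h1 := h _ ⟨t, ht, (R.cell W e t 0, R.cell W e t 1, R.cell W e (t + 1) 0),
      ⟨⟨R.length_cell W e t 0, R.length_cell W e t 1, R.length_cell W e (t + 1) 0⟩, hn⟩, rfl⟩
    simp only [sat_append] at h1
    rw [R.sat_dif (R.length_cell W e _ _), R.sat_dif (R.length_cell W e _ _),
      R.sat_dif (R.length_cell W e _ _)] at h1
    simp at h1
  · rintro h c ⟨t, ht, ⟨u, v, w⟩, ⟨⟨hu, hv, hw⟩, hn⟩, rfl⟩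
    simp only at hu hv hw hn
    simp only [sat_append]
    rw [R.sat_dif hu, R.sat_dif hv, R.sat_dif hw]
    by_contra hc
    simp only [ne_eq, not_or, not_not] at hc
    obtain ⟨⟨rfl, rfl⟩, rfl⟩ := hc
    exact hn (h t ht)

theorem sat_stepCl (T W : ℕ) (e : ℕ → Bool) :
    (∀ c ∈ R.stepCl T W, Sat e c) ↔
      ∀ t < T, ∀ i < W - 1, R.cell W e (t + 1) (i + 1) =
        R.R1 (R.cell W e t 0) (R.cell W e t i) (R.cell W e t (i + 1)) (R.cell W e t (i + 2)) := by
  simp only [stepCl, P1, List.mem_flatMap, List.mem_range, List.mem_map, List.mem_filter,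
    decide_eq_true_eq, mem_prod, mem_allBits, ne_eq]
  constructor
  · intro h t ht i hi
    by_contra hn
    have h1 := h _ ⟨t, ht, i, hi, ((R.cell W e t 0, R.cell W e t i),
      (R.cell W e t (i + 1), R.cell W e t (i + 2)), R.cell W e (t + 1) (i + 1)),
      ⟨⟨⟨R.length_cell W e _ _, R.length_cell W e _ _⟩, ⟨R.length_cell W e _ _,
        R.length_cell W e _ _⟩, R.length_cell W e _ _⟩, hn⟩, rfl⟩
    simp only [sat_append] at h1
    rw [R.sat_dif (R.length_cell W e _ _), R.sat_dif (R.length_cell W e _ _),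
      R.sat_dif (R.length_cell W e _ _), R.sat_dif (R.length_cell W e _ _),
      R.sat_dif (R.length_cell W e _ _)] at h1
    simp at h1
  · rintro h c ⟨t, ht, i, hi, ⟨⟨u, v⟩, ⟨w, x⟩, y⟩, ⟨⟨⟨hu, hv⟩, ⟨hw, hx⟩, hy⟩, hn⟩, rfl⟩
    simp only at hu hv hw hx hy hn
    simp only [sat_append]
    rw [R.sat_dif hu, R.sat_dif hv, R.sat_dif hw, R.sat_dif hx, R.sat_dif hy]
    by_contra hc
    simp only [ne_eq, not_or, not_not] at hc
    obtain ⟨⟨⟨⟨rfl, rfl⟩, rfl⟩, rfl⟩, rfl⟩ := hc
    exact hn (h t ht i hi)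

theorem sat_tableau (T W : ℕ) (A : List (List (List Bool))) (e : ℕ → Bool) :
    (∀ c ∈ (R.tableau T W A).2, Sat e c) ↔ R.Good T W A (R.cell W e) := by
  simp only [tableau, List.forall_mem_append]
  rw [R.sat_initCl, R.sat_edgeCl, R.sat_zeroCl, R.sat_stepCl, R.sat_accCl]
  constructor
  · rintro ⟨⟨⟨⟨h1, h2⟩, h3⟩, h4⟩, h5⟩
    exact ⟨h1, h2, h3, h4, h5⟩
  · rintro ⟨h1, h2, h3, h4, h5⟩
    exact ⟨⟨⟨⟨h1, h2⟩, h3⟩, h4⟩, h5⟩

/-! ### well-formedness -/

theorem dif_lt {T W t i : ℕ} {v : List Bool} (h : t * (W + 1) + i < (T + 1) * (W + 1)) :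
    ∀ l ∈ R.dif W t i v, l.1 < (T + 1) * (W + 1) * R.b := by
  intro l hl
  rw [dif, List.mem_map] at hl
  obtain ⟨j, hj, rfl⟩ := hl
  rw [List.mem_range] at hj
  calc (t * (W + 1) + i) * R.b + j < (t * (W + 1) + i) * R.b + R.b := by omega
    _ = (t * (W + 1) + i + 1) * R.b := by ring
    _ ≤ (T + 1) * (W + 1) * R.b := Nat.mul_le_mul_right _ h

theorem idx_lt {T W t i : ℕ} (ht : t ≤ T) (hi : i ≤ W) :
    t * (W + 1) + i < (T + 1) * (W + 1) := by
  have : t * (W + 1) ≤ T * (W + 1) := Nat.mul_le_mul_right _ ht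
  have h2 : (T + 1) * (W + 1) = T * (W + 1) + (W + 1) := by ring
  omega

theorem idx_lt' {T W t i : ℕ} (ht : t < T) (hi : i ≤ W + 1) :
    t * (W + 1) + i < (T + 1) * (W + 1) := by
  have : (t + 1) * (W + 1) ≤ T * (W + 1) := Nat.mul_le_mul_right _ ht
  have h1 : (t + 1) * (W + 1) = t * (W + 1) + (W + 1) := by ring
  have h2 : (T + 1) * (W + 1) = T * (W + 1) + (W + 1) := by ring
  omega

theorem wf_tableau (T W : ℕ) (A : List (List (List Bool))) :
    CNF.Wf (R.tableau T W A) := by
  intro c hc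
  simp only [tableau, List.mem_append] at hc ⊢
  rcases hc with (((hc | hc) | hc) | hc) | hc
  · rw [initCl, List.mem_flatMap] at hc
    obtain ⟨i, hi, hc⟩ := hc
    rw [List.mem_range] at hi
    rw [List.mem_map] at hc
    obtain ⟨v, -, rfl⟩ := hc
    exact R.dif_lt (idx_lt (Nat.zero_le T) hi.le)
  · rw [edgeCl, List.mem_flatMap] at hc
    obtain ⟨t, ht, hc⟩ := hc
    rw [List.mem_range] at ht
    rw [List.mem_map] at hc
    obtain ⟨v, -, rfl⟩ := hc
    exact R.dif_lt (idx_lt (by omega) le_rfl)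
  · rw [zeroCl, List.mem_flatMap] at hc
    obtain ⟨t, ht, hc⟩ := hc
    rw [List.mem_range] at ht
    rw [List.mem_map] at hc
    obtain ⟨p, -, rfl⟩ := hc
    simp only [List.forall_mem_append]
    exact ⟨⟨R.dif_lt (idx_lt' ht (by omega)), R.dif_lt (idx_lt' ht (by omega))⟩,
      R.dif_lt (idx_lt ht (Nat.zero_le W))⟩
  · rw [stepCl, List.mem_flatMap] at hc
    obtain ⟨t, ht, hc⟩ := hc
    rw [List.mem_range] at ht
    rw [List.mem_flatMap] at hc
    obtain ⟨i, hi, hc⟩ := hc
    rw [List.mem_range] at hi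
    rw [List.mem_map] at hc
    obtain ⟨p, -, rfl⟩ := hc
    simp only [List.forall_mem_append]
    exact ⟨⟨⟨⟨R.dif_lt (idx_lt' ht (by omega)), R.dif_lt (idx_lt' ht (by omega))⟩,
      R.dif_lt (idx_lt' ht (by omega))⟩, R.dif_lt (idx_lt' ht (by omega))⟩,
      R.dif_lt (idx_lt ht (by omega))⟩
  · rw [accCl, List.mem_map] at hc
    obtain ⟨v, -, rfl⟩ := hc
    exact R.dif_lt (idx_lt le_rfl (Nat.zero_le W))

/-! ### counting -/

/-- the first row, continued by blanks -/
def row (W : ℕ) (z : ℕ → ℕ → List Bool) : ℕ → List Bool := fun i => if i < W then z 0 i else R.bl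

theorem Good.eq_iterate {R : Rule} {T W : ℕ} {A : List (List (List Bool))}
    {z : ℕ → ℕ → List Bool} (h : R.Good T W A z) (hW : 0 < W) :
    ∀ t ≤ T, ∀ i ≤ W, z t i = (R.next W)^[t] (R.row W z) i := by
  intro t
  induction t with
  | zero =>
    intro _ i hi
    rw [Function.iterate_zero, id, row]
    rcases hi.lt_or_eq with h1 | h1
    · rw [if_pos h1]
    · rw [h1, if_neg (lt_irrefl W), h.edge 0 (Nat.zero_le T)]
  | succ t ih =>
    intro ht i hi
    have ih := ih (by omega)
    rw [Function.iterate_succ_apply', next]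
    rcases hi.lt_or_eq with h1 | h1
    · rw [if_pos h1]
      rcases Nat.eq_zero_or_pos i with h2 | h2
      · rw [if_pos h2, h2, h.zero t (by omega), ih 0 (Nat.zero_le W), ih 1 hW]
      · rw [if_neg h2.ne']
        obtain ⟨i, rfl⟩ : ∃ j, i = j + 1 := ⟨i - 1, by omega⟩
        rw [h.step t (by omega) i (by omega), ih 0 (by omega), ih i (by omega),
          ih (i + 1) (by omega), ih (i + 2) (by omega)]
        rfl
    · rw [h1, if_neg (lt_irrefl W), h.edge (t + 1) ht]

theorem good_iterate {T W : ℕ} {A : List (List (List Bool))} (hW : 0 < W) {c : ℕ → List Bool}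
    (h1 : ∀ i < W, c i ∈ A.getD i []) (h2 : ∀ i, W ≤ i → c i = R.bl)
    (h3 : R.acc ((R.next W)^[T] c 0) = true) :
    R.Good T W A (fun t => (R.next W)^[t] c) := by
  refine ⟨h1, ?_, ?_, ?_, h3⟩
  · intro t ht
    rcases Nat.eq_zero_or_pos t with rfl | h
    · exact h2 W le_rfl
    · obtain ⟨t, rfl⟩ : ∃ s, t = s + 1 := ⟨t - 1, by omega⟩
      simp only [Function.iterate_succ_apply', next, if_neg (lt_irrefl W)]
  · intro t ht
    simp only [Function.iterate_succ_apply', next, if_pos hW, if_true]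
  · intro t ht i hi
    simp only [Function.iterate_succ_apply', next]
    rw [if_pos (by omega), if_neg (by omega)]
    rfl

theorem length_next {W : ℕ} {c : ℕ → List Bool} (i : ℕ) : (R.next W c i).length = R.b := by
  rw [next]
  split_ifs
  · exact R.h0 _ _
  · exact R.h1 _ _ _ _
  · exact R.hbl

theorem length_iterate {W : ℕ} {c : ℕ → List Bool} (hc : ∀ i, (c i).length = R.b) (t i : ℕ) :
    ((R.next W)^[t] c i).length = R.b := by
  cases t with
  | zero => exact hc i
  | succ t => rw [Function.iterate_succ_apply']; exact R.length_next i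

/-- the assignment given by the cells -/
def asg (W : ℕ) (z : ℕ → ℕ → List Bool) (v : ℕ) : Bool :=
  (z (v / R.b / (W + 1)) (v / R.b % (W + 1))).getD (v % R.b) false

theorem cell_asg {W : ℕ} {z : ℕ → ℕ → List Bool} (hz : ∀ t i, (z t i).length = R.b) {t i : ℕ}
    (hi : i ≤ W) : R.cell W (R.asg W z) t i = z t i := by
  apply List.ext_getElem
  · rw [length_cell, hz]
  · intro j hj hj'
    rw [length_cell] at hj
    simp only [cell, List.getElem_map, List.getElem_range, asg]
    have hb : 0 < R.b := by omega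
    have h1 : ((t * (W + 1) + i) * R.b + j) / R.b = t * (W + 1) + i := by
      rw [mul_comm, Nat.mul_add_div hb, Nat.div_eq_of_lt hj, add_zero]
    have h2 : ((t * (W + 1) + i) * R.b + j) % R.b = j := by
      rw [mul_comm, Nat.mul_add_mod, Nat.mod_eq_of_lt hj]
    have h3 : (t * (W + 1) + i) / (W + 1) = t := by
      rw [mul_comm, Nat.mul_add_div (by omega), Nat.div_eq_of_lt (by omega), add_zero]
    have h4 : (t * (W + 1) + i) % (W + 1) = i := by
      rw [mul_comm, Nat.mul_add_mod, Nat.mod_eq_of_lt (by omega)]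
    rw [h1, h2, h3, h4, List.getD_eq_getElem _ _ hj']

/-- the continuation of an assignment -/
def ext {n : ℕ} (a : Fin n → Bool) (v : ℕ) : Bool := if h : v < n then a ⟨v, h⟩ else false

theorem ext_val {n : ℕ} (a : Fin n → Bool) (v : Fin n) : ext a v = a v := by
  simp [ext]

theorem sat_ext {n : ℕ} (a : Fin n → Bool) {c : List (ℕ × Bool)} (hc : ∀ l ∈ c, l.1 < n) :
    (∃ l ∈ c, ∃ h : l.1 < n, a ⟨l.1, h⟩ = l.2) ↔ Sat (ext a) c := by
  constructor
  · rintro ⟨l, hl, h, h1⟩
    exact ⟨l, hl, by rw [ext, dif_pos h, h1]⟩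
  · rintro ⟨l, hl, h1⟩
    refine ⟨l, hl, hc l hl, ?_⟩
    rw [ext, dif_pos (hc l hl)] at h1
    exact h1

/-- the index of a bit -/
theorem exists_idx {T W : ℕ} (v : ℕ) (hv : v < (T + 1) * (W + 1) * R.b) :
    ∃ t ≤ T, ∃ i ≤ W, ∃ j < R.b, v = (t * (W + 1) + i) * R.b + j := by
  have hb : 0 < R.b := Nat.pos_of_ne_zero fun h => by simp [h] at hv
  have h1 : v / R.b < (T + 1) * (W + 1) := Nat.div_lt_of_lt_mul (by rw [mul_comm]; exact hv)
  have h2 : v / R.b / (W + 1) < T + 1 := Nat.div_lt_of_lt_mul (by rw [mul_comm]; exact h1)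
  refine ⟨v / R.b / (W + 1), by omega, v / R.b % (W + 1),
    Nat.le_of_lt_succ (Nat.mod_lt _ (Nat.succ_pos W)), v % R.b, Nat.mod_lt _ hb, ?_⟩
  have h3 : v / R.b / (W + 1) * (W + 1) + v / R.b % (W + 1) = v / R.b := Nat.div_add_mod' _ _
  rw [h3, Nat.div_add_mod']

theorem ext_eq_of_cell {T W : ℕ} {e e' : ℕ → Bool}
    (h : ∀ t ≤ T, ∀ i ≤ W, R.cell W e t i = R.cell W e' t i) {v : ℕ}
    (hv : v < (T + 1) * (W + 1) * R.b) : e v = e' v := by
  obtain ⟨t, ht, i, hi, j, hj, rfl⟩ := R.exists_idx v hv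
  have h1 : (R.cell W e t i).getD j false = (R.cell W e' t i).getD j false := by
    rw [h t ht i hi]
  rw [List.getD_eq_getElem _ _ (by rw [length_cell]; exact hj),
    List.getD_eq_getElem _ _ (by rw [length_cell]; exact hj)] at h1
  simpa only [cell, List.getElem_map, List.getElem_range] using h1

theorem count_tableau (T W : ℕ) (hW : 0 < W) (A : List (List (List Bool)))
    (hA : ∀ S ∈ A, ∀ v ∈ S, v.length = R.b) :
    count (R.tableau T W A) = Nat.card {c : ℕ → List Bool //
      (∀ i < W, c i ∈ A.getD i []) ∧ (∀ i, W ≤ i → c i = R.bl) ∧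
        R.acc ((R.next W)^[T] c 0) = true} := by
  have key : ∀ a : Fin (R.tableau T W A).1 → Bool,
      (∀ c ∈ (R.tableau T W A).2, ∃ l ∈ c, ∃ h : l.1 < (R.tableau T W A).1, a ⟨l.1, h⟩ = l.2) ↔
        R.Good T W A (R.cell W (ext a)) := by
    intro a
    rw [← R.sat_tableau]
    exact forall₂_congr fun c hc => sat_ext a (R.wf_tableau T W A c hc)
  rw [count]
  refine Nat.card_congr (Equiv.ofBijective (fun a => ⟨R.row W (R.cell W (ext a.1)), ?_⟩) ?_)
  · have h := (key a.1).1 a.2
    refine ⟨fun i hi => ?_, fun i hi => ?_, ?_⟩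
    · rw [row, if_pos hi]
      exact h.init i hi
    · rw [row, if_neg (by omega)]
    · rw [← h.eq_iterate hW T le_rfl 0 (Nat.zero_le W)]
      exact h.acc
  · constructor
    · rintro ⟨a, ha⟩ ⟨a', ha'⟩ h
      have h1 := (key a).1 ha
      have h2 := (key a').1 ha'
      simp only [Subtype.mk.injEq] at h ⊢
      funext v
      rw [← ext_val a v, ← ext_val a' v]
      refine R.ext_eq_of_cell (T := T) (W := W) (fun t ht i hi => ?_) v.2
      rw [h1.eq_iterate hW t ht i hi, h2.eq_iterate hW t ht i hi, h]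
    · rintro ⟨c, h1, h2, h3⟩
      have hlen : ∀ i, (c i).length = R.b := by
        intro i
        rcases lt_or_ge i W with h | h
        · have h4 := h1 i h
          rcases lt_or_ge i A.length with h5 | h5
          · rw [List.getD_eq_getElem _ _ h5] at h4
            exact hA _ (List.getElem_mem h5) _ h4
          · rw [List.getD_eq_default _ _ h5] at h4
            simp at h4
        · rw [h2 i h, R.hbl]
      have hz := R.length_iterate (W := W) hlen
      let z : ℕ → ℕ → List Bool := fun t => (R.next W)^[t] c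
      let a : Fin (R.tableau T W A).1 → Bool := fun v => R.asg W z v
      have hcell : ∀ t ≤ T, ∀ i ≤ W, R.cell W (ext a) t i = z t i := by
        intro t ht i hi
        rw [← R.cell_asg (z := z) hz hi]
        refine List.map_congr_left fun j hj => ?_
        rw [List.mem_range] at hj
        have hlt : (t * (W + 1) + i) * R.b + j < (R.tableau T W A).1 := by
          calc (t * (W + 1) + i) * R.b + j < (t * (W + 1) + i) * R.b + R.b := by omega
            _ = (t * (W + 1) + i + 1) * R.b := by ring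
            _ ≤ (T + 1) * (W + 1) * R.b := Nat.mul_le_mul_right _ (idx_lt ht hi)
        exact ext_val a ⟨_, hlt⟩
      have hg := R.good_iterate (T := T) (A := A) hW h1 h2 h3
      have hg' : R.Good T W A (R.cell W (ext a)) := by
        refine ⟨fun i hi => ?_, fun t ht => ?_, fun t ht => ?_, fun t ht i hi => ?_, ?_⟩
        · rw [hcell 0 (Nat.zero_le T) i hi.le]
          exact hg.init i hi
        · rw [hcell t ht W le_rfl]
          exact hg.edge t ht
        · rw [hcell (t + 1) ht 0 (Nat.zero_le W), hcell t ht.le 0 (Nat.zero_le W),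
            hcell t ht.le 1 hW]
          exact hg.zero t ht
        · rw [hcell (t + 1) ht (i + 1) (by omega), hcell t ht.le 0 (Nat.zero_le W),
            hcell t ht.le i (by omega), hcell t ht.le (i + 1) (by omega),
            hcell t ht.le (i + 2) (by omega)]
          exact hg.step t ht i hi
        · rw [hcell T le_rfl 0 (Nat.zero_le W)]
          exact hg.acc
      refine ⟨⟨a, (key a).2 hg'⟩, ?_⟩
      rw [Subtype.mk.injEq]
      funext i
      rw [row]
      split_ifs with h
      · exact hcell 0 (Nat.zero_le T) i h.le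
      · exact (h2 i (by omega)).symm

end Rule

end Pool.Agent.Lib.CookLevin
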